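import Pool.Agent.H20.SC4

namespace Pool.Agent.Results.MP_1f99fc_al.Coarsest

open Pool.Agent.H20.SC

theorem result (n : ℕ) (F : Type) [Field F] [Finite F] (θ : AddChar F ℂ) (hθ : θ ≠ 1) :
    ∃ X : Set (Set (U n F → ℂ)), IsSCT X (Set.range cls) ∧ sig '' X = Set.range (sch θ) ∧
      Contains θ X ∧ ∀ X' K', IsSCT X' K' → Contains θ X' →
        ∀ C ∈ K', ∃ x : U n F, C ⊆ cls x := main n F θ hθ

end Pool.Agent.Results.MP_1f99fc_al.Coarsest
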